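import Pool.Agent.H77.AK.NSE

set_option autoImplicit false

namespace Pool.Agent.Results.MP_ba96da_co.NonSticky

/-- An inequality for all sets containing a progression of length `k` of every difference
`d ≤ N = p 0 * ... * p (n-1)`: if there are few points, then the pairs (first term, difference)
occupy many residue classes modulo the partial products of the primes `p i`. -/
theorem result (k n : ℕ) (hk : 1 ≤ k) (p : ℕ → ℕ) (hp : ∀ i < n, (p i).Prime) (a : ℕ → ℕ)
    (A : Finset ℕ)
    (hA : ∀ d ∈ Finset.Icc 1 (∏ i ∈ Finset.range n, p i), ∀ j ∈ Finset.range k,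
      a d + j * d ∈ A) :
    ((∏ i ∈ Finset.range n, p i : ℕ) : ℝ) ≤
      (A.card : ℝ) * ∏ i ∈ Finset.range n,
        (1 + ((((Finset.Icc 1 (∏ t ∈ Finset.range n, p t)).image
          (fun d => (a d % (∏ t ∈ Finset.range (i + 1), p t),
            d % (∏ t ∈ Finset.range (i + 1), p t)))).card : ℝ) /
            ((∏ t ∈ Finset.range i, p t : ℕ) : ℝ) - 1) * (⌈(k : ℝ) / p i⌉₊ / k)) :=
  Pool.Agent.H77.AK.nonSticky k n hk p hp a A hA

end Pool.Agent.Results.MP_ba96da_co.NonSticky
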