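import Pool.Agent.H77.AK.OSB
import Pool.Agent.H77.AK.OSC

set_option autoImplicit false

namespace Pool.Agent.Results.MP_ba96da_co.OneSidedStarts

/-- Progressions of every difference `d ≤ N` whose first terms have increments bounded on one side
(up to `E` exceptions) need at least `c (N / ((C + k) (E + 1))) ^ (1 - 1/k)` points, and for
monotone first terms the exponent `1 - 1/k` is best possible. -/
theorem result (k : ℕ) (hk : 1 ≤ k) :
    (∃ c : ℝ, 0 < c ∧ ∀ (N C E : ℕ), 1 ≤ N → ∀ (a : ℕ → ℕ) (A : Finset ℕ),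
      (∀ d ∈ Finset.Icc 1 N, ∀ j ∈ Finset.range k, a d + j * d ∈ A) →
      (((Finset.Ico 1 N).filter (fun d => a d + C < a (d + 1))).card ≤ E ∨
        ((Finset.Ico 1 N).filter (fun d => a (d + 1) + C < a d)).card ≤ E) →
      c * ((N : ℝ) / (((C : ℝ) + k) * ((E : ℝ) + 1))) ^ (1 - 1 / (k : ℝ)) ≤ A.card) ∧
    (∃ c : ℝ, ∀ N : ℕ, 1 ≤ N → ∃ (a : ℕ → ℕ) (A : Finset ℕ), Antitone a ∧
      (∀ d ∈ Finset.Icc 1 N, ∀ j ∈ Finset.range k, a d + j * d ∈ A) ∧
      (A.card : ℝ) ≤ c * (N : ℝ) ^ (1 - 1 / (k : ℝ))) :=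
  ⟨Pool.Agent.H77.AK.lower_nat k hk, Pool.Agent.H77.AK.example_upper k hk⟩

end Pool.Agent.Results.MP_ba96da_co.OneSidedStarts
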