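import Pool.Agent.H43.AP.Final

/-!
# Sets containing progressions of many differences, with structured slices

The slices are the sets `{a d + j d : d ∈ D}`.  A slice is structured if it lies in a set `B` with
`|B + B| ≤ K |B|` (and `|B| ≤ K |A|`).  If `|A| ≥ c |D| ^ s` is the best bound when the slices
`j ∈ Q` lie in `A`, then the best bound when in addition the `r` slices `j ∈ J` are structured is
`|A| ≥ c |D| ^ s'` with `1 / (1 - s') = r + 1 / (1 - s)`.  For two free slices this is
`|A| ≥ c |D| ^ (1 - 1 / (r + 2))`, and the question itself is equivalent to its restriction to sets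
with `r` structured slices, for every fixed `r`.
-/

set_option autoImplicit false

namespace Pool.Agent.Results.MP_ba96da_co.StructuredProjections

open Pool.Agent.H43.AP
open scoped Pointwise

theorem result :
    (∀ J Q : Finset ℕ, J.Nonempty → Q.Nonempty → Disjoint J Q → ∀ u v : ℕ, 1 ≤ v → v ≤ u →
      (Admissible Q u v → MixedBound J Q u v) ∧
      (MixedBound J Q u v →
        MixedAdmissible J Q (u + J.card * (u - v)) (u + (J.card - 1) * (u - v))) ∧
      (MixedAdmissible J Q (u + J.card * (u - v)) (u + (J.card - 1) * (u - v)) →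
        Admissible Q u v)) ∧
    (∀ J Q : Finset ℕ, J.Nonempty → 2 ≤ Q.card → Disjoint J Q →
      ∃ C : ℕ, ∀ (D : Finset ℕ) (a : ℕ → ℕ) (A : Finset ℕ) (B : ℕ → Finset ℕ) (K : ℕ),
        D.Nonempty → 1 ≤ K → (∀ d ∈ D, ∀ j ∈ Q, a d + j * d ∈ A) →
        (∀ j ∈ J, ∀ d ∈ D, a d + j * d ∈ B j) →
        (∀ j ∈ J, (B j + B j).card ≤ K * (B j).card) →
        D.card ^ (J.card + 1) ≤ C * K ^ C * (∏ j ∈ J, (B j).card) * A.card ^ 2) ∧
    (∀ r : ℕ, GreenStructured r ↔ Green) ∧ (GreenShort ↔ Green) :=
  ⟨mixed_iff, mixed_two, green_structured, green_short⟩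

end Pool.Agent.Results.MP_ba96da_co.StructuredProjections
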