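import Pool.Agent.H43.AK.Main
import Pool.Agent.H43.AK.Sharp

/-!
# Sets containing progressions of many differences, additively structured first terms

If the graph of the first terms `a d`, `d ∈ D`, has at least `|D| ^ 3 / K` additive quadruples, then
a set containing the progressions `a d, a d + d, ..., a d + (k-1) d` has at least
`c K ^ (-c') |D| ^ (1 - 1/k)` elements; the exponent `1 - 1/k` is best possible.
-/

set_option autoImplicit false

namespace Pool.Agent.Results.MP_ba96da_co.StructuredStarts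

open Pool.Agent.H43.AK

theorem result (k : ℕ) (hk : 1 ≤ k) :
    (∃ C : ℕ, ∀ (D : Finset ℕ) (a : ℕ → ℕ) (A : Finset ℕ) (K : ℕ), D.Nonempty → 1 ≤ K →
      Contains k D a A → D.card ^ 3 ≤ K * quadruples D a →
      D.card ^ (k - 1) ≤ C * K ^ C * A.card ^ k) ∧
    (∃ C : ℕ, ∀ N : ℕ, 1 ≤ N → ∃ (a : ℕ → ℕ) (A : Finset ℕ), Contains k (Finset.Icc 1 N) a A ∧
      (sumset (Finset.Icc 1 N) a).card ≤ C * N ∧ N ^ 3 ≤ C * quadruples (Finset.Icc 1 N) a ∧
      A.card ^ k ≤ C * N ^ (k - 1)) :=
  ⟨energy k hk, sharp k hk⟩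

end Pool.Agent.Results.MP_ba96da_co.StructuredStarts
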